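import Pool.Agent.Y661.HE.Stm2

/-!
# HE-WLK: decay of the walk in the presence of an approximate ground state
-/

set_option autoImplicit false

open scoped BigOperators

namespace Pool.Agent.Y430.HE.WLK

open Finset
open Pool.Agent.H12R2.And (V ee Q mem_Q Q_mono self_mem_Q)
open Pool.Agent.H4R2.HD (ind)
open Pool.Agent.Y661.HE

variable {d : ℕ}

theorem plus_mem {z x : V d} {k : ℕ} {i : Fin d} (h : x + ee i ∈ Q z k) : x ∈ Q z (k + 1) := by
  rw [mem_Q] at h ⊢
  intro j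
  have h1 := h j
  simp only [Pi.add_apply, Pi.single_apply] at h1
  rw [abs_le] at h1 ⊢
  push_cast
  split_ifs at h1 <;> constructor <;> linarith [h1.1, h1.2]

theorem minus_mem {z x : V d} {k : ℕ} {i : Fin d} (h : x - ee i ∈ Q z k) : x ∈ Q z (k + 1) := by
  rw [mem_Q] at h ⊢
  intro j
  have h1 := h j
  simp only [Pi.sub_apply, Pi.single_apply] at h1
  rw [abs_le] at h1 ⊢
  push_cast
  split_ifs at h1 <;> constructor <;> linarith [h1.1, h1.2]

theorem shift (B : Finset (V d)) (v : V d → ℝ) (a : V d) (h1 : ∀ x, x ∉ B → v x = 0)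
    (h2 : ∀ x, x ∉ B → v (x + a) = 0) : ∑ x ∈ B, v (x + a) = ∑ x ∈ B, v x := by
  have e1 : ∑' x, v (x + a) = ∑ x ∈ B, v (x + a) := tsum_eq_sum fun x hx => h2 x hx
  have e2 : ∑' x, v x = ∑ x ∈ B, v x := tsum_eq_sum fun x hx => h1 x hx
  rw [← e1, ← e2]
  exact (Equiv.addRight a).tsum_eq v

section step

variable (φ g : V d → ℝ) (z : V d) (k : ℕ)

/-- the form at a point -/
def PP (x : V d) : ℝ := ∑ i : Fin d, (φ (x + ee i) * (g x - g (x + ee i)) ^ 2 +
  φ (x - ee i) * (g x - g (x - ee i)) ^ 2)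

/-- the operator at a point -/
def pp (x : V d) : ℝ := ∑ i : Fin d, (φ (x + ee i) * (g x - g (x + ee i)) +
  φ (x - ee i) * (g x - g (x - ee i)))

/-- the form -/
noncomputable def Fe : ℝ := ∑ x ∈ Q z (k + 1), ∑ i : Fin d,
  φ x * φ (x + ee i) * (g (x + ee i) - g x) ^ 2

variable {φ g z k}

theorem energy_id (hg : ∀ x, x ∉ Q z k → g x = 0) :
    ∑ x ∈ Q z (k + 1), φ x * g x * pp φ g x = Fe φ g z k := by
  have hg' : ∀ x, x ∉ Q z (k + 1) → g x = 0 := fun x hx =>
    hg x fun h => hx (Q_mono (Nat.le_succ k) h)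
  unfold pp Fe
  simp only [mul_sum]
  rw [sum_comm, sum_comm (s := Q z (k + 1))]
  refine sum_congr rfl fun i _ => ?_
  have h1 := shift (Q z (k + 1)) (fun x => φ x * g x * (φ (x - ee i) * (g x - g (x - ee i))))
    (ee i) (fun x hx => by simp only [hg' x hx]; ring) (fun x hx => by
      have : g (x + ee i) = 0 := hg _ fun h => hx (plus_mem h)
      simp only [this]; ring)
  simp only [add_sub_cancel_right] at h1
  simp only [mul_add]
  rw [sum_add_distrib, ← h1, ← sum_add_distrib]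
  refine sum_congr rfl fun x _ => ?_
  ring

theorem edge_twice (hg : ∀ x, x ∉ Q z k → g x = 0) :
    ∑ x ∈ Q z (k + 1), φ x * PP φ g x = 2 * Fe φ g z k := by
  have hg' : ∀ x, x ∉ Q z (k + 1) → g x = 0 := fun x hx =>
    hg x fun h => hx (Q_mono (Nat.le_succ k) h)
  unfold PP Fe
  simp only [mul_sum]
  rw [sum_comm, sum_comm (s := Q z (k + 1))]
  refine sum_congr rfl fun i _ => ?_
  have h1 := shift (Q z (k + 1)) (fun x => φ x * (φ (x - ee i) * (g x - g (x - ee i)) ^ 2))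
    (ee i) (fun x hx => by
      have : g (x - ee i) = 0 := hg _ fun h => hx (minus_mem h)
      simp only [hg' x hx, this]; ring) (fun x hx => by
      have : g (x + ee i) = 0 := hg _ fun h => hx (plus_mem h)
      simp only [add_sub_cancel_right, this, hg' x hx]; ring)
  simp only [add_sub_cancel_right] at h1
  simp only [mul_add]
  rw [sum_add_distrib, ← h1, ← sum_add_distrib]
  refine sum_congr rfl fun x _ => ?_
  ring

theorem l1_sym (hg : ∀ x, x ∉ Q z k → g x = 0) :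
    ∑ x ∈ Q z (k + 1), ∑ i : Fin d, φ x * (φ (x + ee i) * |g (x + ee i)| +
      φ (x - ee i) * |g (x - ee i)|) =
    ∑ x ∈ Q z (k + 1), ∑ i : Fin d, φ x * |g x| * (φ (x + ee i) + φ (x - ee i)) := by
  have hg' : ∀ x, x ∉ Q z (k + 1) → g x = 0 := fun x hx =>
    hg x fun h => hx (Q_mono (Nat.le_succ k) h)
  rw [sum_comm, sum_comm (s := Q z (k + 1))]
  refine sum_congr rfl fun i _ => ?_
  have h1 := shift (Q z (k + 1)) (fun x => φ x * |g x| * φ (x - ee i))
    (ee i) (fun x hx => by simp only [hg' x hx, abs_zero]; ring) (fun x hx => by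
      have : g (x + ee i) = 0 := hg _ fun h => hx (plus_mem h)
      simp only [this, abs_zero]; ring)
  have h2 := shift (Q z (k + 1)) (fun x => φ x * |g x| * φ (x + ee i))
    (-ee i) (fun x hx => by simp only [hg' x hx, abs_zero]; ring) (fun x hx => by
      have : g (x + -ee i) = 0 := hg _ fun h => hx (minus_mem (by rwa [sub_eq_add_neg]))
      simp only [this, abs_zero]; ring)
  simp only [add_sub_cancel_right] at h1
  simp only [← sub_eq_add_neg, sub_add_cancel] at h2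
  simp only [mul_add]
  rw [sum_add_distrib, sum_add_distrib, ← h1, ← h2, add_comm]
  refine congrArg₂ (· + ·) ?_ ?_
  · refine sum_congr rfl fun x _ => ?_
    ring
  · refine sum_congr rfl fun x _ => ?_
    ring

theorem cs (hφ : ∀ x, 1 / 2 ≤ φ x ∧ φ x ≤ 3 / 2) (x : V d) :
    pp φ g x ^ 2 ≤ 3 * d * PP φ g x := by
  have hp : ∀ x, 0 ≤ φ x := fun x => by linarith [(hφ x).1]
  have h1 : pp φ g x ^ 2 ≤ (∑ i : Fin d, (φ (x + ee i) + φ (x - ee i))) * PP φ g x := by
    unfold pp PP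
    refine sum_sq_le_sum_mul_sum_of_sq_le_mul _ (fun i _ => add_nonneg (hp _) (hp _))
      (fun i _ => add_nonneg (mul_nonneg (hp _) (sq_nonneg _)) (mul_nonneg (hp _) (sq_nonneg _)))
      fun i _ => ?_
    have h2 := mul_nonneg (mul_nonneg (hp (x + ee i)) (hp (x - ee i)))
      (sq_nonneg (g x - g (x + ee i) - (g x - g (x - ee i))))
    nlinarith
  have h2 : ∑ i : Fin d, (φ (x + ee i) + φ (x - ee i)) ≤ 3 * d := by
    calc ∑ i : Fin d, (φ (x + ee i) + φ (x - ee i)) ≤ ∑ _i : Fin d, (3 : ℝ) :=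
          sum_le_sum fun i _ => by linarith [(hφ (x + ee i)).2, (hφ (x - ee i)).2]
      _ = 3 * d := by
          rw [sum_const, card_univ, Fintype.card_fin, nsmul_eq_mul]
          ring
  have h3 : 0 ≤ PP φ g x := sum_nonneg fun i _ =>
    add_nonneg (mul_nonneg (hp _) (sq_nonneg _)) (mul_nonneg (hp _) (sq_nonneg _))
  exact h1.trans (mul_le_mul_of_nonneg_right h2 h3)

end step

section step2

variable {φ W f : V d → ℝ} {E s b : ℝ} {z : V d} {k : ℕ}

/-- the coefficient of the potential -/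
noncomputable def kk (φ W : V d → ℝ) (E s : ℝ) (x : V d) : ℝ :=
  Lp φ x + (W x - E) * φ x + s * φ x

theorem hh_eq (hφ : ∀ x, 1 / 2 ≤ φ x ∧ φ x ≤ 3 / 2) (x : V d) :
    Lp f x + (W x - (E - s)) * f x =
      pp φ (fun x => f x / φ x) x + kk φ W E s x * (f x / φ x) := by
  have hp : ∀ x, φ x ≠ 0 := fun x => by
    have := (hφ x).1
    intro h
    rw [h] at this
    norm_num at this
  have h1 : ∀ y, φ y * (f x / φ x - f y / φ y) = φ y * (f x / φ x) - f y := fun y => by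
    have := hp y
    field_simp
  unfold pp kk Lp
  simp only [h1]
  have h2 : ∑ i : Fin d, (φ (x + ee i) * (f x / φ x) - f (x + ee i) +
      (φ (x - ee i) * (f x / φ x) - f (x - ee i))) =
      (∑ i : Fin d, (φ (x + ee i) + φ (x - ee i))) * (f x / φ x) -
        ∑ i : Fin d, (f (x + ee i) + f (x - ee i)) := by
    rw [sum_mul, ← sum_sub_distrib]
    refine sum_congr rfl fun i _ => ?_
    ring
  rw [h2]
  have h3 : f x = φ x * (f x / φ x) := by
    have := hp x
    field_simp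
  have h4 : (2 * d * φ x + (W x - E) * φ x + s * φ x) * (f x / φ x) =
      (2 * d + (W x - E) + s) * f x := by
    conv_rhs => rw [h3]
    ring
  linear_combination -h4

theorem kk_bound (hφ : ∀ x, 1 / 2 ≤ φ x ∧ φ x ≤ 3 / 2) (hs : 0 < s) (hs1 : s ≤ 1) {x : V d}
    (hx : |Lp φ x + (W x - E) * φ x| ≤ s / 2) : 0 ≤ kk φ W E s x ∧ kk φ W E s x ≤ 2 := by
  unfold kk
  rw [abs_le] at hx
  have h1 := mul_le_mul_of_nonneg_left (hφ x).1 hs.le
  have h2 := mul_le_mul_of_nonneg_left (hφ x).2 hs.le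
  constructor <;> linarith [hx.1, hx.2]

theorem sq_bound (hd : 1 ≤ d) {p q P K : ℝ} (h1 : p ^ 2 ≤ 3 * d * P) (h2 : q ^ 2 ≤ 2 * K) :
    (p + q) ^ 2 ≤ (3 * d + 1) * (P + 2 * K) := by
  have hD : (0 : ℝ) < 3 * d := by
    have : (1 : ℝ) ≤ d := by exact_mod_cast hd
    linarith
  obtain ⟨D, hDe⟩ : ∃ D : ℝ, D = 3 * d := ⟨_, rfl⟩
  rw [← hDe] at h1 hD ⊢
  have h3 : D * (p + q) ^ 2 ≤ (D + 1) * (p ^ 2 + D * q ^ 2) := by
    nlinarith [sq_nonneg (p - D * q)]
  have h4 : p ^ 2 + D * q ^ 2 ≤ D * (P + 2 * K) := by nlinarith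
  have h5 : D * (p + q) ^ 2 ≤ D * ((D + 1) * (P + 2 * K)) := by
    have := mul_le_mul_of_nonneg_left h4 (by linarith : 0 ≤ D + 1)
    linarith
  exact le_of_mul_le_mul_left h5 hD

/-- decrease of the energy -/
theorem step_energy (hd : 1 ≤ d) (hφ : ∀ x, 1 / 2 ≤ φ x ∧ φ x ≤ 3 / 2) (hs : 0 < s)
    (hs1 : s ≤ 1) (hres : ∀ x ∈ Q z (k + 1), |Lp φ x + (W x - E) * φ x| ≤ s / 2)
    (hb : 12 * d + 4 ≤ b) (hf : ∀ x, x ∉ Q z k → f x = 0) :
    ∑ x ∈ Q z (k + 1), TT W (E - s) b f x ^ 2 ≤ ∑ x ∈ Q z k, f x ^ 2 -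
      1 / (4 * b) * ∑ x ∈ Q z (k + 1), ∑ i : Fin d,
        (f (x + ee i) / φ (x + ee i) - f x / φ x) ^ 2 := by
  have hd' : (1 : ℝ) ≤ d := by exact_mod_cast hd
  have hb0 : 0 < b := by linarith
  have hp : ∀ x, 0 < φ x := fun x => by linarith [(hφ x).1]
  obtain ⟨g, hg⟩ : ∃ g : V d → ℝ, g = fun x => f x / φ x := ⟨_, rfl⟩
  have hg0 : ∀ x, x ∉ Q z k → g x = 0 := fun x hx => by rw [hg]; simp only [hf x hx, zero_div]
  have hfg : ∀ x, f x = φ x * g x := fun x => by
    rw [hg]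
    have := (hp x).ne'
    field_simp
  obtain ⟨h, hh⟩ : ∃ h : V d → ℝ, h = fun x => pp φ g x + kk φ W E s x * g x := ⟨_, rfl⟩
  have hT : ∀ x, TT W (E - s) b f x = f x - h x / b := by
    intro x
    unfold TT
    rw [hh_eq hφ x, hh, hg]
  -- the form
  obtain ⟨Fk, hFk⟩ : ∃ Fk : ℝ, Fk = ∑ x ∈ Q z (k + 1), φ x * (kk φ W E s x * g x ^ 2) := ⟨_, rfl⟩
  have c1 : ∑ x ∈ Q z (k + 1), f x * h x = Fe φ g z k + Fk := by
    rw [← energy_id hg0, hFk, ← sum_add_distrib]
    refine sum_congr rfl fun x _ => ?_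
    rw [hfg x, hh]
    ring
  have hFk0 : 0 ≤ Fk := by
    rw [hFk]
    exact sum_nonneg fun x hx => mul_nonneg (hp x).le
      (mul_nonneg (kk_bound hφ hs hs1 (hres x hx)).1 (sq_nonneg _))
  have hFe1 : 1 / 4 * ∑ x ∈ Q z (k + 1), ∑ i : Fin d, (g (x + ee i) - g x) ^ 2 ≤ Fe φ g z k := by
    unfold Fe
    rw [mul_sum]
    refine sum_le_sum fun x _ => ?_
    rw [mul_sum]
    refine sum_le_sum fun i _ => ?_
    have h1 : (1 : ℝ) / 4 ≤ φ x * φ (x + ee i) := by
      have := mul_le_mul (hφ x).1 (hφ (x + ee i)).1 (by norm_num) (hp x).le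
      linarith
    exact mul_le_mul_of_nonneg_right h1 (sq_nonneg _)
  have hFe0 : 0 ≤ Fe φ g z k := by
    unfold Fe
    exact sum_nonneg fun x _ => sum_nonneg fun i _ =>
      mul_nonneg (mul_nonneg (hp _).le (hp _).le) (sq_nonneg _)
  have c2 : ∑ x ∈ Q z (k + 1), h x ^ 2 ≤ (12 * d + 4) * (Fe φ g z k + Fk) := by
    have h1 : ∀ x ∈ Q z (k + 1), h x ^ 2 ≤
        (3 * d + 1) * (2 * (φ x * PP φ g x) + 4 * (φ x * (kk φ W E s x * g x ^ 2))) := by
      intro x hx
      obtain ⟨k1, k2⟩ := kk_bound hφ hs hs1 (hres x hx)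
      have hP0 : 0 ≤ PP φ g x := sum_nonneg fun i _ =>
        add_nonneg (mul_nonneg (hp _).le (sq_nonneg _)) (mul_nonneg (hp _).le (sq_nonneg _))
      have hK0 : 0 ≤ kk φ W E s x * g x ^ 2 := mul_nonneg k1 (sq_nonneg _)
      have h2 : (kk φ W E s x * g x) ^ 2 ≤ 2 * (kk φ W E s x * g x ^ 2) := by
        have := mul_le_mul_of_nonneg_right k2 hK0
        nlinarith
      have h3 := sq_bound hd (cs (g := g) hφ x) h2
      have h4 : h x = pp φ g x + kk φ W E s x * g x := by rw [hh]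
      rw [h4]
      refine h3.trans (mul_le_mul_of_nonneg_left ?_ (by linarith))
      have h5 := mul_le_mul_of_nonneg_right (hφ x).1 hP0
      have h6 := mul_le_mul_of_nonneg_right (hφ x).1 hK0
      linarith
    refine (sum_le_sum h1).trans (le_of_eq ?_)
    rw [← mul_sum, sum_add_distrib, ← mul_sum, ← mul_sum, edge_twice hg0, ← hFk]
    ring
  have e1 : ∑ x ∈ Q z (k + 1), f x ^ 2 = ∑ x ∈ Q z k, f x ^ 2 := by
    refine (sum_subset (Q_mono (Nat.le_succ k)) fun x _ hx => ?_).symm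
    rw [hf x hx]
    norm_num
  have e2 : ∑ x ∈ Q z (k + 1), TT W (E - s) b f x ^ 2 = ∑ x ∈ Q z (k + 1), f x ^ 2 -
      2 / b * ∑ x ∈ Q z (k + 1), f x * h x + 1 / b ^ 2 * ∑ x ∈ Q z (k + 1), h x ^ 2 := by
    rw [mul_sum, mul_sum, ← sum_sub_distrib, ← sum_add_distrib]
    refine sum_congr rfl fun x _ => ?_
    rw [hT x]
    field_simp
    ring
  rw [e2, c1, e1]
  have hF0 : 0 ≤ Fe φ g z k + Fk := by linarith
  have h5 : ∑ x ∈ Q z (k + 1), h x ^ 2 ≤ b * (Fe φ g z k + Fk) :=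
    c2.trans (mul_le_mul_of_nonneg_right hb hF0)
  have h6 : 1 / b ^ 2 * ∑ x ∈ Q z (k + 1), h x ^ 2 ≤ 1 / b * (Fe φ g z k + Fk) := by
    refine (mul_le_mul_of_nonneg_left h5 (by positivity)).trans (le_of_eq ?_)
    field_simp
  have h7 : 1 / (4 * b) * ∑ x ∈ Q z (k + 1), ∑ i : Fin d,
        (f (x + ee i) / φ (x + ee i) - f x / φ x) ^ 2 ≤ 1 / b * (Fe φ g z k + Fk) := by
    have h8 : 1 / (4 * b) * ∑ x ∈ Q z (k + 1), ∑ i : Fin d,
        (f (x + ee i) / φ (x + ee i) - f x / φ x) ^ 2 =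
        1 / b * (1 / 4 * ∑ x ∈ Q z (k + 1), ∑ i : Fin d, (g (x + ee i) - g x) ^ 2) := by
      rw [hg]
      field_simp
    rw [h8]
    exact mul_le_mul_of_nonneg_left (by linarith) (by positivity)
  have h9 : 2 / b * (Fe φ g z k + Fk) = 2 * (1 / b * (Fe φ g z k + Fk)) := by ring
  rw [h9]
  linarith

/-- the weighted `l¹` norm decreases -/
theorem step_l1 (hd : 1 ≤ d) (hφ : ∀ x, 1 / 2 ≤ φ x ∧ φ x ≤ 3 / 2) (hs : 0 < s)
    (hs1 : s ≤ 1) (hres : ∀ x ∈ Q z (k + 1), |Lp φ x + (W x - E) * φ x| ≤ s / 2)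
    (hb : 12 * d + 4 ≤ b) (hf : ∀ x, x ∉ Q z k → f x = 0) :
    ∑ x ∈ Q z (k + 1), φ x * |TT W (E - s) b f x| ≤ ∑ x ∈ Q z k, φ x * |f x| := by
  have hd' : (1 : ℝ) ≤ d := by exact_mod_cast hd
  have hb0 : 0 < b := by linarith
  have hp : ∀ x, 0 < φ x := fun x => by linarith [(hφ x).1]
  obtain ⟨g, hg⟩ : ∃ g : V d → ℝ, g = fun x => f x / φ x := ⟨_, rfl⟩
  have hg0 : ∀ x, x ∉ Q z k → g x = 0 := fun x hx => by rw [hg]; simp only [hf x hx, zero_div]
  have hfg : ∀ x, f x = φ x * g x := fun x => by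
    rw [hg]
    have := (hp x).ne'
    field_simp
  have hpt : ∀ x ∈ Q z (k + 1), φ x * |TT W (E - s) b f x| ≤ φ x * |f x| -
      1 / b * (∑ i : Fin d, φ x * |g x| * (φ (x + ee i) + φ (x - ee i))) +
      1 / b * ∑ i : Fin d, φ x * (φ (x + ee i) * |g (x + ee i)| +
        φ (x - ee i) * |g (x - ee i)|) := by
    intro x hx
    obtain ⟨k1, k2⟩ := kk_bound hφ hs hs1 (hres x hx)
    obtain ⟨A, hA⟩ : ∃ A : ℝ, A = ∑ i : Fin d, (φ (x + ee i) + φ (x - ee i)) := ⟨_, rfl⟩
    obtain ⟨S, hS⟩ : ∃ S : ℝ, S = ∑ i : Fin d, (φ (x + ee i) * g (x + ee i) +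
      φ (x - ee i) * g (x - ee i)) := ⟨_, rfl⟩
    obtain ⟨S', hS'⟩ : ∃ S' : ℝ, S' = ∑ i : Fin d, (φ (x + ee i) * |g (x + ee i)| +
      φ (x - ee i) * |g (x - ee i)|) := ⟨_, rfl⟩
    have hSS : |S| ≤ S' := by
      rw [hS, hS']
      refine (abs_sum_le_sum_abs _ _).trans (sum_le_sum fun i _ => ?_)
      refine (abs_add_le _ _).trans ?_
      rw [abs_mul, abs_mul, abs_of_pos (hp _), abs_of_pos (hp _)]
    have hA3 : A ≤ 3 * d := by
      rw [hA]
      calc ∑ i : Fin d, (φ (x + ee i) + φ (x - ee i)) ≤ ∑ _i : Fin d, (3 : ℝ) :=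
            sum_le_sum fun i _ => by linarith [(hφ (x + ee i)).2, (hφ (x - ee i)).2]
        _ = 3 * d := by
            rw [sum_const, card_univ, Fintype.card_fin, nsmul_eq_mul]
            ring
    have hpp : pp φ g x = A * g x - S := by
      rw [hA, hS, sum_mul, ← sum_sub_distrib]
      unfold pp
      refine sum_congr rfl fun i _ => ?_
      ring
    have hT : TT W (E - s) b f x = (φ x - (A + kk φ W E s x) / b) * g x + S / b := by
      unfold TT
      rw [hh_eq hφ x, ← hg, hpp, hfg x]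
      have : f x / φ x = g x := by rw [hg]
      rw [hfg x] at this
      rw [this]
      ring
    have hc : 0 ≤ φ x - (A + kk φ W E s x) / b := by
      have h1 : (A + kk φ W E s x) / b ≤ 1 / 2 := by
        rw [div_le_iff₀ hb0]
        linarith
      linarith [(hφ x).1]
    have h2 : |TT W (E - s) b f x| ≤ (φ x - (A + kk φ W E s x) / b) * |g x| + S' / b := by
      rw [hT]
      refine (abs_add_le _ _).trans ?_
      rw [abs_mul, abs_of_nonneg hc, abs_div, abs_of_pos hb0]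
      have := div_le_div_of_nonneg_right hSS hb0.le
      linarith
    have h3 : |f x| = φ x * |g x| := by rw [hfg x, abs_mul, abs_of_pos (hp x)]
    have e1 : ∑ i : Fin d, φ x * |g x| * (φ (x + ee i) + φ (x - ee i)) = φ x * |g x| * A := by
      rw [hA, mul_sum]
    have e2 : ∑ i : Fin d, φ x * (φ (x + ee i) * |g (x + ee i)| +
        φ (x - ee i) * |g (x - ee i)|) = φ x * S' := by rw [hS', mul_sum]
    rw [e1, e2, h3]
    have h4 := mul_le_mul_of_nonneg_left h2 (hp x).le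
    have h5 : 0 ≤ φ x * (kk φ W E s x / b * |g x|) :=
      mul_nonneg (hp x).le (mul_nonneg (div_nonneg k1 hb0.le) (abs_nonneg _))
    have h6 : φ x * ((φ x - (A + kk φ W E s x) / b) * |g x| + S' / b) =
        φ x * (φ x * |g x|) - 1 / b * (φ x * |g x| * A) + 1 / b * (φ x * S') -
          φ x * (kk φ W E s x / b * |g x|) := by
      field_simp
      ring
    linarith
  refine (sum_le_sum hpt).trans (le_of_eq ?_)
  rw [sum_add_distrib, sum_sub_distrib, ← mul_sum, ← mul_sum, l1_sym hg0, sub_add_cancel]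
  refine (sum_subset (Q_mono (Nat.le_succ k)) fun x _ hx => ?_).symm
  rw [hf x hx, abs_zero, mul_zero]

end step2

/-- locality -/
theorem tlo_step {W f : V d → ℝ} {e b : ℝ} {z : V d} {k : ℕ} (hf : ∀ x, x ∉ Q z k → f x = 0)
    (x : V d) (hx : x ∉ Q z (k + 1)) : TT W e b f x = 0 := by
  unfold TT Lp
  have h1 : f x = 0 := hf x fun h => hx (Q_mono (Nat.le_succ k) h)
  have h2 : ∀ i : Fin d, f (x + ee i) + f (x - ee i) = 0 := fun i => by
    rw [hf _ fun h => hx (plus_mem h), hf _ fun h => hx (minus_mem h), add_zero]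
  rw [sum_congr rfl fun i _ => h2 i, h1]
  simp

theorem tlo : S_TLO := by
  intro d W e b z n
  induction n with
  | zero =>
    intro x hx
    rw [Function.iterate_zero, id]
    unfold ind
    rw [if_neg]
    rintro rfl
    exact hx (self_mem_Q _ _)
  | succ n ih =>
    intro x hx
    rw [Function.iterate_succ_apply']
    exact tlo_step ih x hx

theorem main (hN : S_NSH) : S_WLK := by
  intro d hd φ W E s b z R n m hφ hs hs1 hres hb hnR hm
  have hd' : (1 : ℝ) ≤ d := by exact_mod_cast hd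
  have hm' : (1 : ℝ) ≤ m := by exact_mod_cast hm
  have hb0 : 0 < b := by linarith
  have hp : ∀ x, 0 < φ x := fun x => by linarith [(hφ x).1]
  obtain ⟨f, hf⟩ : ∃ f : ℕ → V d → ℝ, f = fun k => (TT W (E - s) b)^[k] (ind z) := ⟨_, rfl⟩
  have hf0 : f 0 = ind z := by rw [hf]; rfl
  have hfs : ∀ k, f (k + 1) = TT W (E - s) b (f k) := fun k => by
    rw [hf]
    exact Function.iterate_succ_apply' _ _ _
  have hsup : ∀ k x, x ∉ Q z k → f k x = 0 := fun k x hx => by
    rw [hf]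
    exact tlo W (E - s) b z k x hx
  have hresk : ∀ k < n, ∀ x ∈ Q z (k + 1), |Lp φ x + (W x - E) * φ x| ≤ s / 2 :=
    fun k hk x hx => hres x (Q_mono (by omega) hx)
  -- the weighted `l¹` norm
  have hQ0 : Q z 0 = {z} := by
    ext x
    rw [mem_Q, mem_singleton]
    constructor
    · intro h
      funext i
      have := h i
      simp only [Nat.cast_zero, abs_nonpos_iff] at this
      omega
    · rintro rfl i
      simp
  have hl1 : ∀ k ≤ n, ∑ x ∈ Q z k, φ x * |f k x| ≤ 3 / 2 := by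
    intro k
    induction k with
    | zero =>
      intro _
      rw [hQ0, sum_singleton, hf0]
      unfold ind
      rw [if_pos rfl, abs_one, mul_one]
      exact (hφ z).2
    | succ k ih =>
      intro hk
      rw [hfs]
      exact (step_l1 hd hφ hs hs1 (hresk k (by omega)) hb (hsup k)).trans (ih (by omega))
  obtain ⟨κ, hκ⟩ : ∃ κ : ℝ, κ = ((Real.sqrt (2 * m + 1))⁻¹) ^ d := ⟨_, rfl⟩
  have hκ0 : 0 ≤ κ := by rw [hκ]; positivity
  obtain ⟨ρ, hρ⟩ : ∃ ρ : ℝ, ρ = 1 - 2 / (9 * b * m) := ⟨_, rfl⟩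
  have hρ0 : 0 ≤ ρ := by
    rw [hρ, sub_nonneg, div_le_one (by positivity)]
    nlinarith
  have hmain : ∀ k ≤ n, ∑ x ∈ Q z k, f k x ^ 2 ≤ ρ ^ k + 81 * κ := by
    intro k
    induction k with
    | zero =>
      intro _
      rw [hQ0, sum_singleton, hf0]
      unfold ind
      rw [if_pos rfl, pow_zero]
      linarith
    | succ k ih =>
      intro hk
      have h1 := ih (by omega)
      have h2 := step_energy hd hφ hs hs1 (hresk k (by omega)) hb (hsup k)
      rw [← hfs] at h2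
      have h3 := hN hd z k m (fun x => f k x / φ x) (fun x hx => by
        show f k x / φ x = 0
        rw [hsup k x hx, zero_div])
      rw [← hκ] at h3
      -- the `l¹` norm
      have h4 : ∑ x ∈ Q z k, |f k x / φ x| ≤ 6 := by
        have h5 : ∀ x ∈ Q z k, |f k x / φ x| ≤ 4 * (φ x * |f k x|) := by
          intro x _
          rw [abs_div, abs_of_pos (hp x), div_le_iff₀ (hp x)]
          have h6 : (1 : ℝ) / 4 ≤ φ x * φ x := by
            have := mul_le_mul (hφ x).1 (hφ x).1 (by norm_num) (hp x).le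
            linarith
          have h7 := mul_le_mul_of_nonneg_right h6 (abs_nonneg (f k x))
          linarith
        refine (sum_le_sum h5).trans ?_
        rw [← mul_sum]
        linarith [hl1 k (by omega)]
      have h5 : (∑ x ∈ Q z k, |f k x / φ x|) ^ 2 ≤ 36 := by
        have h0 : 0 ≤ ∑ x ∈ Q z k, |f k x / φ x| := sum_nonneg fun x _ => abs_nonneg _
        nlinarith
      have h6 : 4 / 9 * ∑ x ∈ Q z k, f k x ^ 2 ≤ ∑ x ∈ Q z k, (f k x / φ x) ^ 2 := by
        rw [mul_sum]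
        refine sum_le_sum fun x _ => ?_
        rw [div_pow, le_div_iff₀ (by have := hp x; positivity)]
        have h7 : φ x ^ 2 ≤ 9 / 4 := by nlinarith [(hφ x).2, hp x]
        have h8 := mul_le_mul_of_nonneg_left h7 (sq_nonneg (f k x))
        linarith
      obtain ⟨S, hS⟩ : ∃ S : ℝ, S = ∑ x ∈ Q z (k + 1), ∑ i : Fin d,
        (f k (x + ee i) / φ (x + ee i) - f k x / φ x) ^ 2 := ⟨_, rfl⟩
      rw [← hS] at h2 h3
      obtain ⟨a, ha⟩ : ∃ a : ℝ, a = ∑ x ∈ Q z k, f k x ^ 2 := ⟨_, rfl⟩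
      rw [← ha] at h1 h2 h6
      have h7 : 4 / 9 * a ≤ m / 2 * S + κ * 36 := by
        have := mul_le_mul_of_nonneg_left h5 hκ0
        linarith
      have h8 : 1 / (4 * b) * S ≥ 1 / (2 * b * m) * (4 / 9 * a - κ * 36) := by
        have h9 : 1 / (2 * b * m) * (4 / 9 * a - κ * 36) ≤ 1 / (2 * b * m) * (m / 2 * S) :=
          mul_le_mul_of_nonneg_left (by linarith) (by positivity)
        refine h9.trans (le_of_eq ?_)
        field_simp
        ring
      have h9 : ∑ x ∈ Q z (k + 1), f (k + 1) x ^ 2 ≤ ρ * a + 18 / (b * m) * κ := by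
        refine h2.trans ?_
        have : ρ * a + 18 / (b * m) * κ = a - 1 / (2 * b * m) * (4 / 9 * a - κ * 36) := by
          rw [hρ]
          field_simp
          ring
        rw [this]
        linarith
      refine h9.trans ?_
      have h10 := mul_le_mul_of_nonneg_left h1 hρ0
      have h11 : ρ * (ρ ^ k + 81 * κ) + 18 / (b * m) * κ = ρ ^ (k + 1) + 81 * κ := by
        have : ρ * (81 * κ) + 18 / (b * m) * κ = 81 * κ := by
          rw [hρ]
          field_simp
          ring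
        rw [pow_succ]
        linarith
      linarith
  have := hmain n le_rfl
  rw [hf, hρ, hκ] at this
  exact this

end Pool.Agent.Y430.HE.WLK
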